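import Pool.Agent.T2h09.PR.Top
import Pool.Agent.T2h09.ND.Fg

/-!
# Descent of abundance for pairs, by norms and determinants of the trace form

Let `V` and `W` be projective manifolds of dimension `n`, `π : V ⇢ W` a dominant rational map of
degree `r`, not necessarily Galois, and `(W, Δ)` a pair, for instance klt. The multiplicities of the
`ℚ`-divisors along all divisors over `V` and `W` are part of the data. Let `R` be the ramification
divisor (multiplicity `e - 1` along a divisor with ramification index `e`), so that
`π* (K_W + Δ) = K_V + π* Δ - R`. Let `S` and `S'` be two sets of rational functions on `V`, each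
of which spans the function field of `V` over the one of `W` (the points of the general fibres of
`π` impose `r` conditions on each), for instance `S = S'`, and let `D` and `D'` be the divisors of
their poles (on a model where they have no base points). The theorem, for all rational `t ≥ 0`:

  `κ (W, K_W + Δ) ≥ κ (V, π* (K_W + Δ) + t (R - D - D'))`,

and so, if the right hand side is the numerical dimension `ν (V, π* (K_W + Δ))`, then
`κ (W, K_W + Δ) = ν (W, K_W + Δ)`: the pair satisfies the abundance conjecture. In the
theorem, `t = s / m` and `π* Δ + (t - 1) R` may be replaced by a smaller divisor `Γ`.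

For `t = 0` this is the usual comparison of a pair with its crepant pull-back, and for `t = 1` it
compares `K_W + Δ` with `K_V + π* Δ - D - D'`, where the ramification does not appear. The theorem
interpolates between the two. For instance, let `B` be the orbifold branch divisor of `π`,
with coefficient the largest `1 - 1 / e` along a divisor with ramification indices `e`. Then, for
`0 ≤ t ≤ 1`,

  `κ (W, K_W + (1 - t) B) ≥ κ (V, K_V - t (D + D'))`,
  `ν (W, K_W + (1 - t) B) ≤ ν (V, K_V + (1 - t) π* B - R)`.

The proof: for sections `Θ` of `m (K_V + Γ) - s (D + D')` the product of the norm of `Θ` and the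
`s`-th power of the determinant of the matrix of the traces of the `h i * h' j`, where `h` and `h'` are
bases in `S` and `S'`, is a section of `r m (K_W + Δ)`: if `g` is a function on `V` with
`ord g = (1 - e) - min (ord (h i)) - min (ord (h' j))` along the divisors over a divisor `P` of `W`,
then the traces of the `g * h i * h' j` are regular along `P`, so that the norm of `g` times that
determinant is regular.
-/

set_option autoImplicit false

open FF Pool.Agent.W619.TW Pool.Agent.W619.PQ

namespace Pool.Agent.Results.MP_e23cd6_ag.DescentOfPairs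

/-- **Descent of abundance for pairs.** Let `K` and `L ⊆ K` be the function fields of the projective
varieties `V` and `W` of dimension `n`, `K` finite over `L`, let each of the sets `S` and `S'` of
rational functions on `V` span `K` over `L`, let `δ` be the multiplicities of a `ℚ`-divisor `Δ` along
the divisors over `W` and `γ` those of a `ℚ`-divisor `Γ` along the divisors over `V`, with
`Γ ≤ π* Δ + (s / m - 1) R` (`hγ`). Let `Θ 0, ..., Θ a` be rational forms on `V` such that all
`(f * g) ^ s * Θ j`, for `f` in `S` and `g` in `S'`, are sections of `m (K_V + Γ)`, and let the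
ratios `Θ j / Θ 0` be algebraically independent. Then `κ (W, K_W + Δ) ≥ a`. If moreover
`ν (V, K_V + Δ') ≤ a` for a `ℚ`-divisor `Δ' ≥ π* Δ - R`, for instance for the crepant pull-back
`π* Δ - R`, then `κ (W, K_W + Δ) = ν (W, K_W + Δ) = a`. -/
theorem result {K : Type} [Field K] [Algebra ℂ K] [Algebra.EssFiniteType ℂ K] {n : ℕ}
    (hn : Algebra.trdeg ℂ K = n) (L : Type) [Field L] [Algebra ℂ L] [Algebra L K]
    [IsScalarTower ℂ L K] [FiniteDimensional L K] (S S' : Set K) (hS : Submodule.span L S = ⊤)
    (hS' : Submodule.span L S' = ⊤) (δ : Place ℂ L → ℚ) (γ : Place ℂ K → ℚ) {m s a : ℕ}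
    (hm : 0 < m)
    (hγ : ∀ (Q : Place ℂ K) (P : Place ℂ L) (e : ℕ), Over Q P e →
      IsDivisorial P n → γ Q ≤ e * δ P + ((s : ℚ) / m - 1) * (e - 1))
    (Θ : Fin (a + 1) → (Fin n → Derivation ℂ K K) → K)
    (hΘ : ∀ j, ∀ f ∈ S, ∀ g ∈ S', IsPairSec ℂ K n γ {1} m 0 fun D => (f * g) ^ s * Θ j D)
    (hind : ∃ D, Θ 0 D ≠ 0 ∧ AlgebraicIndependent ℂ fun j : Fin a => Θ j.succ D / Θ 0 D) :
    PairKodGe ℂ L n δ a ∧
      ∀ δ' : Place ℂ K → ℚ,
        (∀ (Q : Place ℂ K) (P : Place ℂ L) (e : ℕ), Over Q P e →
          IsDivisorial P n → e * δ P - (e - 1) ≤ δ' Q) →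
        PairNumLe ℂ K n δ' a →
          PairNumLe ℂ L n δ a ∧ ∀ b, PairKodGe ℂ L n δ b → b ≤ a := by
  classical
  have hessL : Algebra.EssFiniteType ℂ L := Pool.Agent.T2h09.ND.ess_below (K := K)
  have hL : Algebra.trdeg ℂ L = n := Pool.Agent.T2h09.ND.trdeg_below (K := K) hn
  obtain ⟨ι, _, h, hh⟩ := Pool.Agent.T2h09.ND.exists_basis S hS
  obtain ⟨ι', _, h', hh'⟩ := Pool.Agent.T2h09.ND.exists_basis S' hS'
  let e : ι' ≃ ι := h'.indexEquiv h
  refine ⟨Pool.Agent.T2h09.PR.pairKod_descent (s := s) (γ := γ) hL h (h'.reindex e) hm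
    (fun Q P e hQ hP => ?_) Θ (fun l i j => ?_) hind, fun δ' hδ' hnum => ?_⟩
  · have h1 := hγ Q P e hQ hP
    have hm' : (0 : ℚ) < m := by exact_mod_cast hm
    have h2 := mul_le_mul_of_nonneg_left h1 hm'.le
    have h3 : (m : ℚ) * (e * δ P + ((s : ℚ) / m - 1) * (e - 1)) =
        m * (e * δ P) + ((s : ℚ) - m) * (e - 1) := by
      field_simp
    rwa [h3] at h2
  · rw [Module.Basis.reindex_apply]
    exact hΘ l (h i) (hh i) _ (hh' _)
  · have h1 : PairNumLe ℂ L n δ a := Pool.Agent.T2h09.PR.pairNum_down hL hδ' hnum
    exact ⟨h1, fun b hb => Pool.Agent.T2h09.PR.kod_le_num hb h1⟩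

end Pool.Agent.Results.MP_e23cd6_ag.DescentOfPairs
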