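import Pool.Agent.N162.GP.Sep
import Pool.Agent.T2h13.AF.Str
import Pool.Agent.T2h13.AF.Hom

/-!
# Structure of the varieties dominated by a fibration over a variety with many canonical forms

Let `V` be a variety of dimension `n` whose canonical forms separate less than `g` generic points, for
instance a smooth complete intersection (part 1). Let `W ⇢ V` be any dominant rational map with
connected fibres, of any relative dimension `r`; `W` need not be a product. Let `h ≥ 1` be such that
the generic fibre has few forms: either `h^(q,0) ≤ h` for `1 ≤ q ≤ r` (part 3), or, with `h = 1`, the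
generic fibre is almost homogeneous (part 4), for instance a torsor under an abelian variety of any
dimension, or a rational homogeneous or toric variety. So `h = 1` is possible for the fibrations in
abelian varieties, K3 surfaces, Calabi-Yau and irreducible holomorphic symplectic manifolds, Enriques
surfaces and rationally connected varieties.

**Theorem (part 2).** Let `W ⇢ X` be a dominant rational map of finite degree to a variety `X`, which
need not be related to the fibration, and need not be the quotient by a group. Let `d` be the number of
different points of `V` below a general fibre of it, i.e. the degree over `X` of the image of `W` in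
`X × V`; the degree of `W ⇢ X` may be arbitrarily large. If `(h + 1) d < g`, then there is a dominant
rational map with connected fibres `X ⇢ Z` to a variety `Z` of general type of dimension `n`, such that
`W ⇢ X` maps the fibres of `W ⇢ V` onto the fibres of `X ⇢ Z`: the function field of `Z` is the
intersection of the function fields of `X` and `V`, and `V` is generically finite over `Z`.

## Abundance

Let `r ≤ 3`. By known theorems the abundance conjecture follows for all klt pairs `(X, Δ)` on `X` and on
all varieties birational to `X`. The general fibre of `X ⇢ Z` has dimension `r ≤ 3`. If `K_X + Δ` is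
nef, it has sections on this fibre by abundance in dimension three, and `κ(K_X + Δ) ≥ dim Z = dim X - r`
by the subadditivity of the logarithmic Kodaira dimension over a base of general type (Campana, Fujino,
Kovács and Patakfalvi). For `κ(K_X + Δ) ≥ dim X - 3` abundance is known (Lai, Gongyo and Lehmann). There
is no condition on the irregularity of `X`: if `V` is a complete intersection of dimension at least two
and the fibres are regular, `X` may be regular.

## Proof

The trace on `X` of a canonical form `f` on `V` is an `n`-form on `X`. Its pullback to `W` is the sum of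
the pullbacks of `f` under the `d` conjugates of the map `W ⇢ V`. Suppose that not all conjugates
factor through `V`, and consider the largest number `q ≥ 1` such that the form `σ^* f` has a nonzero
component with `q` factors along the fibres of `W ⇢ V`, for some `f` and some conjugate `σ`. The
component of this type of the trace is independent of the lifts of the vector fields of `V` to `W`, so
it is a regular `q`-form on the generic fibre, with values in a space of dimension at most `h` over
the function field of `V`. So for `h + 1` generic points of a fibre of `W ⇢ V` there is a linear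
relation between its values, with coefficients independent of `f`. This is a linear relation between
the values of the forms `f` at at most `(h + 1) d` points of `V`. Since these are separated by the
canonical forms, the relation is trivial, and one of the conjugates is constant on the fibres, a
contradiction.
-/

set_option autoImplicit false
set_option linter.overlappingInstances false
set_option maxHeartbeats 4000000
set_option synthInstance.maxHeartbeats 400000

open FF Module Pool.Agent Pool.Agent.W602.GT Pool.Agent.N162.BC Pool.Agent.N162.GP
open Pool.Agent.T2h13.AF

namespace Pool.Agent.Results.MP_e23cd6_ag.FibrationsFewForms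

/-- The functions `f` such that the canonical form `f dx_1 ... dx_n` on the variety `V` with the
function field `E` and the coordinates `x` is regular at all prime divisors over `V`. -/
def canonicalForms {E : Type} [Field E] [Algebra ℂ E] {n : ℕ} (x : Fin n → E) : Set E :=
  {f | ∀ P : Place ℂ E, Divisorial n P → ∀ D : Fin n → Derivation ℂ E E, (∀ i, DerReg P (D i)) →
    P.Reg ((Matrix.of fun i j => D i (x j) : Matrix (Fin n) (Fin n) E).det * f)}

/-- The canonical forms of `V` separate less than `g` generic points: a linear relation between the
values of all canonical forms at less than `g` different dominant points of `V`, with values in an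
algebraically closed field, is trivial. -/
def Separates {E : Type} [Field E] [Algebra ℂ E] {n : ℕ} (x : Fin n → E) (g : ℕ) : Prop :=
  ∀ (Ω : Type) [Field Ω] [Algebra ℂ Ω] [IsAlgClosed Ω] (A : Finset (E →ₐ[ℂ] Ω)), A.card < g →
    ∀ c : (E →ₐ[ℂ] Ω) → Ω, (∀ f ∈ canonicalForms x, ∑ σ ∈ A, c σ * σ f = 0) →
      ∀ σ ∈ A, c σ = 0

/-- `κ(X) ≥ h` for the projective variety `X` of dimension `n` with the function field `L`: for some
`N > 0` there are `h + 1` `N`-canonical forms, regular at all prime divisors over `X`, whose ratios are
`h` algebraically independent functions. -/
def KodairaGe (L : Type) [Field L] [Algebra ℂ L] (n h : ℕ) : Prop :=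
  ∃ N : ℕ, 0 < N ∧ ∃ ω : Fin (h + 1) → (Fin n → Derivation ℂ L L) → L,
    (∀ j, IsPluri N (ω j) ∧ ∀ P : Place ℂ L, Divisorial n P → RegAt P (ω j)) ∧
    ∃ D, ω 0 D ≠ 0 ∧ AlgebraicIndependent ℂ (fun i : Fin h => ω i.succ D / ω 0 D)

/-- `W ⇢ V` is a dominant rational map with connected fibres from a variety of dimension `n + r` to a
variety of dimension `n` with the coordinates `x`; `K` and `E` are the function fields. -/
structure Fibration (n r : ℕ) {K : Type} [Field K] [Algebra ℂ K] (E : IntermediateField ℂ K)
    (x : Fin n → E) : Prop where
  ess : Algebra.EssFiniteType ℂ K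
  total : Algebra.trdeg ℂ K = (n + r : ℕ)
  base : Algebra.trdeg ℂ E = n
  closed : ∀ z : K, IsAlgebraic E z → z ∈ E
  coord : IsTranscendenceBasis ℂ x

/-- The degree over `X` of the image of `W` in `X × V`, where `L ⊆ K` is the function field of `X`,
`K` the one of `W` and `E ⊆ K` the one of `V`. -/
noncomputable def degree (L : Type) {K : Type} [Field L] [Field K] [Algebra ℂ K] [Algebra L K]
    (E : IntermediateField ℂ K) : ℕ :=
  finrank L (IntermediateField.adjoin L (E : Set K))

/-- The fibration `W ⇢ V` descends to a fibration of `X` over a variety `Z` of general type of the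
dimension `n` of `V`: the intersection `Z` of the function fields of `X` and `V` is algebraically
closed in the function field of `X`, the function field of `V` is algebraic over `Z`, and the Kodaira
dimension of `Z` is `n`. -/
def FibredOverGeneralType (n : ℕ) (L : Type) {K : Type} [Field L] [Field K] [Algebra ℂ L]
    [Algebra ℂ K] [Algebra L K] (E : IntermediateField ℂ K) : Prop :=
  ∃ Z : IntermediateField ℂ L, (∀ z : L, z ∈ Z ↔ algebraMap L K z ∈ E) ∧
    (∀ z : L, IsAlgebraic Z z → z ∈ Z) ∧ (∀ e ∈ E, IsAlgebraic Z e) ∧
    Algebra.trdeg ℂ Z = n ∧ KodairaGe Z n n

/-- Any `h + 1` regular forms of the same positive degree on the generic fibre are linearly dependent: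
`h^(q,0) ≤ h` for all `q ≥ 1`. -/
def HodgeLe {K : Type} [Field K] [Algebra ℂ K] (E : IntermediateField ℂ K) (r h : ℕ) : Prop :=
  ∀ (q : ℕ), 0 < q → ∀ φ : Fin (h + 1) → (Derivation E K K) [⋀^Fin q]→ₗ[K] K,
    (∀ i, RegForm E r (φ i)) → ¬ LinearIndependent E φ

theorem kodairaGe_of {L : Type} [Field L] [Algebra ℂ L] {n h : ℕ}
    (hk : KodGe ℂ L n (fun _ => False) h) : KodairaGe L n h := by
  obtain ⟨N, hN, ω, h1, h2⟩ := hk
  exact ⟨N, hN, ω, fun j => ⟨(h1 j).1, fun P hP => (h1 j).2.2 P hP id⟩, h2⟩

theorem hX_iff {E : Type} [Field E] [Algebra ℂ E] {n : ℕ} (x : Fin n → E) :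
    N145.SX.HX x (fun _ => False) = canonicalForms x := by
  ext f
  constructor
  · intro h P hP D hD
    exact (h P hP).2 (fun h => h) D hD
  · intro h P hP
    refine ⟨fun D hD => h P hP D fun i y hy => ?_, fun _ D hD => h P hP D hD⟩
    by_cases hy0 : y = 0
    · rw [hy0, map_zero]
      exact P.reg_zero
    · have h1 := P.reg_mul (hD i y) hy
      rwa [div_mul_cancel₀ _ hy0] at h1

theorem sep_iff {E : Type} [Field E] [Algebra ℂ E] {n : ℕ} (x : Fin n → E) (g : ℕ) :
    N145.SX.SepX x (fun _ => False) g ↔ Separates x g := by
  unfold N145.SX.SepX Separates
  rw [hX_iff]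

/-- **Structure of the varieties dominated by a fibration.** (1) For a smooth complete intersection `V`
of dimension `n ≥ 1` of hypersurfaces of the degrees `d i ≤ D` in projective `(M + 1)`-space, `M ≥ 1`,
with `K_V = O(m)`, and for `7 N + 4 ≤ m`, `(M + 1) N < m + M + 2` and `D + N ≤ m + 2`, the canonical
forms separate less than `(N + 1) (m + 2 - N)` generic points. (2) Let `V` be a variety of dimension `n`
with the function field `E` whose canonical forms separate less than `g` generic points. Let `W ⇢ V` be
a dominant rational map with connected fibres of dimension `r`, and let its generic fibre have few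
forms, with the bound `h ≥ 1`. Let `L ⊆ K` be the function field of a variety `X` such that the
extension is finite, and let `(h + 1) d < g`, where `d` is the degree over `X` of the image of `W` in
`X × V`. Then `X` is fibred over a variety of general type of dimension `n`. (3) If any `h + 1` regular
forms of the same positive degree on the generic fibre are linearly dependent, then the generic fibre
has few forms, with the bound `h`. (4) If the generic fibre is almost homogeneous, then it has few
forms, with the bound `1`. -/
theorem result :
    (∀ (M n q m D N : ℕ) (E : Type) [Field E] [Algebra ℂ E]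
      (F : Fin q → MvPolynomial (Fin (M + 2)) ℂ) (d : Fin q → ℕ) (y : Fin (M + 2) → E),
      SmoothCI F d y → 1 ≤ n → Algebra.trdeg ℂ E = n → n + q = M + 1 → m + M + 2 = ∑ i, d i →
      (∀ i, d i ≤ D) → 1 ≤ D → 1 ≤ M → 7 * N + 4 ≤ m → (M + 1) * N < m + M + 2 → D + N ≤ m + 2 →
      ∀ x : Fin n → E, IsTranscendenceBasis ℂ x → Separates x ((N + 1) * (m + 2 - N))) ∧
    ∀ (n r : ℕ) (K : Type) [Field K] [Algebra ℂ K] (E : IntermediateField ℂ K)
      [Algebra.EssFiniteType ℂ E] (x : Fin n → E), Fibration n r E x →
      (∀ g h : ℕ, Separates x g → 1 ≤ h → FewForms E r h →
        ∀ (L : Type) [Field L] [Algebra ℂ L] [Algebra L K] [IsScalarTower ℂ L K]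
          [FiniteDimensional L K], (h + 1) * degree L E < g → FibredOverGeneralType n L E) ∧
      (∀ h : ℕ, HodgeLe E r h → FewForms E r h) ∧
      ∀ (N : ℕ) (z : Fin (N + 1) → K) (U : Fin r → Derivation E K K), AlmostHom E z U →
        FewForms E r 1 := by
  refine ⟨?_, ?_⟩
  · intro M n q m D N E _ _ F d y h hn hE hq hm hD hD1 hM hN1 hN2 hN3 x hx
    obtain ⟨e, he⟩ := Pool.Agent.Y173.QA.exists_duals hx
    exact (sep_iff x _).1 (sepX_low fINX (lowDegree_of_smoothCI fCIC fCIA h hn hE hq hm hD hD1)
      hM hN1 hN2 hN3 hx he (fun _ => False))
  · intro n r K _ _ E _ x hF
    have hess := hF.ess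
    refine ⟨?_, ?_, ?_⟩
    · intro g h hs hh hf L _ _ _ _ _ hg
      obtain ⟨h1, h2, h3, h4⟩ := str_few (L := L) fPull hF.total hF.base hF.closed hF.coord
        ((sep_iff x g).2 hs) hh hg hf
      exact ⟨base L E, fun z => Iff.rfl, h1, h3, h2, kodairaGe_of h4⟩
    · intro h hf
      exact few_of_forms hF.total hF.base hf
    · intro N z U hM
      exact few_of_hom hF.total hF.base hF.closed hM

end Pool.Agent.Results.MP_e23cd6_ag.FibrationsFewForms
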