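import Pool.Agent.N162.GP.Facts
import Pool.Agent.T2h13.AF.Ab8
import Pool.Agent.T2h13.AF.NuC

/-!
# Abundance for pairs dominated by a fibration with fibres of numerical dimension zero

Let `V` be a variety of dimension `n` whose canonical forms separate less than `g` generic points, for
instance a smooth complete intersection (see `FibrationsFewForms`, part 1). Let `W ⇢ V` be a dominant
rational map with connected fibres of any dimension `r`, with generic fibre `F`, and let `Γ` be a
boundary on `F`, given by its multiplicities along all divisors over `F`. Suppose that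

* `ν(K_F + Γ) ≤ 0`: for instance, `N (K_F + Γ) ~ 0` or `N (K_F + Γ) ≤ 0` on some projective model of `F`,
  see part 2;
* `κ(K_G + Γ) ≥ 0`, where `G` is the foliation of `W` by the fibres of `W ⇢ V`: there is a section
  `φ ≠ 0` of `N (K_G + Γ)`. For `W = V × F` and `N (K_F + Γ) ~ 0` this is the case, and similarly for
  isotrivial families;
* `F` has few forms, with the bound `h ≥ 1`: for instance `h^(q,0) ≤ h` for `q ≥ 1`, or, with `h = 1`,
  `F` is a torsor under an abelian variety (see `FibrationsFewForms`, parts 3 and 4).

So `F` may be any Calabi-Yau or irreducible holomorphic symplectic variety, or a torsor under an abelian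
variety, of any dimension, with `Γ = 0`; or a log Calabi-Yau pair.

**Theorem (part 1).** Let `W ⇢ X` be a dominant rational map of finite degree to a normal projective
variety `X`, which need not be related to the fibration, and need not be the quotient by a group. Let
`d` be the degree over `X` of the image of `W` in `X × V`; the degree of `W ⇢ X` may be arbitrarily
large. Let `(h + 1) d < g`. Let `Δ` be an effective `ℚ`-divisor on `X` such that the restriction of the
pull back of `K_X + Δ` to the generic fibre `F` is at most `K_F + Γ`. Then

* `κ(K_X + Δ) = ν(K_X + Δ) = n`, if `φ` is a section of the pull back of `N (K_X + Δ)` to `F`, i.e. if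
  its order is at least `N (e (1 - Δ_P) - 1)` at the divisors of `F` of ramification index `e` over the
  prime divisors `P` of `X`;
* otherwise `K_X + Δ` is not pseudo-effective, and `κ(K_X + Δ) = ν(K_X + Δ) = -∞`.

So if `(X, Δ)` is klt and `K_X + Δ` is nef then it is semiample (by Kawamata's theorem, as `κ = ν`). There
is no condition on the singularities of `(X, Δ)` along the divisors and the subvarieties which do not
dominate `Z` (the base of the fibration below), and `Δ` is arbitrary there. For example, let `X` have
canonical singularities (for instance, let `X` be smooth), and let `Γ = 0`; then all effective `Δ` are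
allowed which do not dominate `Z`. If `X` has quotient singularities, the standard coefficients
`1 - 1 / e` are possible for the other components of `Δ`.

`κ` and `ν` are given by their literal definitions, by the growth of the sections of `m (K_X + Δ)`, and
of `m (K_X + Δ) + A` for all effective divisors `A`.

## Proof

By the theorem on the structure of the image (`FibrationsFewForms`) the variety `X` is fibred over a
variety `Z` of general type of dimension `n`, the function field of `Z` being the intersection of those of
`X` and `V`. The sections of `m (K_X + Δ) + A` restrict to sections of `m (K_F + Γ) + A'` on `F`, so the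
number of the sections which are linearly independent over the function field of `Z` is bounded
independently of `m`; with the linear growth of the orders along the other divisors one gets
`h⁰ ≤ C m ^ n`. If `φ` is a section of the pull back of `N (K_X + Δ)` on `F`, then the products of the
pluricanonical forms on `Z` with powers of `φ` have the order at least `M (e - 1)` at the divisors of `W`
which do not dominate `V`, since a form on `Z` which is regular at a divisor vanishes to the order
`M (e' - 1)` at the divisors of ramification index `e' ≥ e` above it. So the products descend to forms on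
`X` (elementary symmetric functions of the conjugates), and `κ ≥ n`. Otherwise let `Q` be a divisor of `F`
at which the order of `φ` is too small. If there were sections `s_m` of `m (K_X + Δ) + A` for arbitrarily
large `m`, then the orders of the functions `s_m ^ N / φ ^ m` at `Q` would be unbounded, and the products
of the `s_m ^ N` with powers of `φ` would give arbitrarily many linearly independent sections of
`N M (K_F + Γ) + N A'` on `F`, a contradiction.
-/

set_option autoImplicit false
set_option linter.overlappingInstances false
set_option maxHeartbeats 4000000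
set_option synthInstance.maxHeartbeats 400000

open FF Module Pool.Agent Pool.Agent.W602.GT Pool.Agent.Y172 Pool.Agent.N162.BC Pool.Agent.N162.GP
open Pool.Agent.T2h13.AF
open Pool.Agent.R887 (LogDisc)

namespace Pool.Agent.Results.MP_e23cd6_ag.NuZeroFibrations

/-- The functions `f` such that the canonical form `f dx_1 ... dx_n` on the variety `V` with the
function field `E` and the coordinates `x` is regular at all prime divisors over `V`. -/
def canonicalForms {E : Type} [Field E] [Algebra ℂ E] {n : ℕ} (x : Fin n → E) : Set E :=
  {f | ∀ P : Place ℂ E, Divisorial n P → ∀ D : Fin n → Derivation ℂ E E, (∀ i, DerReg P (D i)) →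
    P.Reg ((Matrix.of fun i j => D i (x j) : Matrix (Fin n) (Fin n) E).det * f)}

/-- The canonical forms of `V` separate less than `g` generic points: a linear relation between the
values of all canonical forms at less than `g` different dominant points of `V`, with values in an
algebraically closed field, is trivial. -/
def Separates {E : Type} [Field E] [Algebra ℂ E] {n : ℕ} (x : Fin n → E) (g : ℕ) : Prop :=
  ∀ (Ω : Type) [Field Ω] [Algebra ℂ Ω] [IsAlgClosed Ω] (A : Finset (E →ₐ[ℂ] Ω)), A.card < g →
    ∀ c : (E →ₐ[ℂ] Ω) → Ω, (∀ f ∈ canonicalForms x, ∑ σ ∈ A, c σ * σ f = 0) →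
      ∀ σ ∈ A, c σ = 0

/-- `W ⇢ V` is a dominant rational map with connected fibres from a variety of dimension `n + r` to a
variety of dimension `n` with the coordinates `x`; `K` and `E` are the function fields. -/
structure Fibration (n r : ℕ) {K : Type} [Field K] [Algebra ℂ K] (E : IntermediateField ℂ K)
    (x : Fin n → E) : Prop where
  ess : Algebra.EssFiniteType ℂ K
  total : Algebra.trdeg ℂ K = (n + r : ℕ)
  base : Algebra.trdeg ℂ E = n
  closed : ∀ z : K, IsAlgebraic E z → z ∈ E
  coord : IsTranscendenceBasis ℂ x

/-- The degree over `X` of the image of `W` in `X × V`, where `L ⊆ K` is the function field of `X`,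
`K` the one of `W` and `E ⊆ K` the one of `V`. -/
noncomputable def degree (L : Type) {K : Type} [Field L] [Field K] [Algebra ℂ K] [Algebra L K]
    (E : IntermediateField ℂ K) : ℕ :=
  finrank L (IntermediateField.adjoin L (E : Set K))

section

variable {K L : Type} [Field K] [Algebra ℂ K] [Field L] [Algebra ℂ L] [Algebra L K] {N' : ℕ}

/-- The place of `K` with the order function `o` lies over the place `P` of `L`, with the ramification
index `e`. -/
def Above (o : K → ℤ) (P : Place ℂ L) (e : ℕ) : Prop :=
  0 < e ∧ ∀ f : L, o (algebraMap L K f) = e * P.ord f

/-- The restriction to the generic fibre `F` of the pull back of `K_X + Δ` is at most `K_F + Γ`: the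
product of the ramification index and of the log discrepancy of `(X, Δ)` along the image of a prime
divisor `v` over `F` is at least `1 - Γ v`. Here `w` is the dimension of `X`. -/
def PullLe (E : IntermediateField ℂ K) (r w : ℕ) (Γ : Place E K → ℚ) (y : Fin (N' + 1) → L)
    (Δ : Place ℂ L → ℚ) : Prop :=
  ∀ v : Place E K, Divisorial r v → ∀ (P : Place ℂ L) (e : ℕ), Above v.ord P e →
    ∃ α : ℚ, LogDisc y w Δ P α ∧ 1 - Γ v ≤ e * α

/-- The form `φ` is a section of the restriction to `F` of the pull back of `N (K_X + Δ)`: its order is
at least `N (e (1 - Δ P) - 1)` along the prime divisors `v` of `F` which lie over a prime divisor `P`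
of `X` with the ramification index `e`. -/
def PullSection (E : IntermediateField ℂ K) (r N : ℕ) (φ : (Fin r → Derivation E K K) → K)
    (y : Fin (N' + 1) → L) (Δ : Place ℂ L → ℚ) : Prop :=
  ∀ v : Place E K, ∀ (P : Place ℂ L) (e : ℕ), IsPrimeDivisor y P → Above v.ord P e →
    ∀ U : Fin r → Derivation E K K, (∀ a, DerReg v (U a)) →
      φ U = 0 ∨ (N : ℚ) * (e * (1 - Δ P) - 1) ≤ v.ord (φ U)

end

theorem hX_iff {E : Type} [Field E] [Algebra ℂ E] {n : ℕ} (x : Fin n → E) :
    N145.SX.HX x (fun _ => False) = canonicalForms x := by
  ext f
  constructor
  · intro h P hP D hD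
    exact (h P hP).2 (fun h => h) D hD
  · intro h P hP
    refine ⟨fun D hD => h P hP D fun i y hy => ?_, fun _ D hD => h P hP D hD⟩
    by_cases hy0 : y = 0
    · rw [hy0, map_zero]
      exact P.reg_zero
    · have h1 := P.reg_mul (hD i y) hy
      rwa [div_mul_cancel₀ _ hy0] at h1

theorem sep_iff {E : Type} [Field E] [Algebra ℂ E] {n : ℕ} (x : Fin n → E) (g : ℕ) :
    N145.SX.SepX x (fun _ => False) g ↔ Separates x g := by
  unfold N145.SX.SepX Separates
  rw [hX_iff]

theorem tame_iff {K L : Type} [Field K] [Algebra ℂ K] [Field L] [Algebra ℂ L] [Algebra L K]
    [IsScalarTower ℂ L K] {N' : ℕ} (E : IntermediateField ℂ K) (r N : ℕ)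
    (φ : (Fin r → Derivation E K K) → K) (y : Fin (N' + 1) → L) (Δ : Place ℂ L → ℚ) :
    Tame E y Δ r N φ ↔ PullSection E r N φ y Δ := by
  constructor
  · intro h v P e hP hv U hU
    refine h (res v) P e hP hv (fun z hz => ?_) U hU
    by_cases hz0 : z = 0
    · rw [hz0]
      exact v.ord_zero
    · have h1 := v.ord_const (c := (⟨z, hz⟩ : E)) fun h => hz0 (congrArg Subtype.val h)
      exact h1
  · intro h Q P e hP hQ hE U hU
    exact h (upE Q hE) P e hP hQ U hU

/-- **Abundance for pairs dominated by a fibration with fibres of numerical dimension zero.** (1) Let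
`V` be a variety of dimension `n` with the function field `E` whose canonical forms separate less than
`g` generic points. Let `W ⇢ V` be a dominant rational map with connected fibres of dimension `r ≥ 1`,
let its generic fibre `F` have few forms, with the bound `h ≥ 1`, and let `Γ` be a boundary on `F` such
that `ν (K_F + Γ) ≤ 0`. Let `φ ≠ 0` be a section of `N (K_G + Γ)`, `N ≥ 1`, where `G` is the foliation by
the fibres of `W ⇢ V`. Let `L ⊆ K` be the function field of a normal projective variety `X` such that
the extension is finite, and let `(h + 1) d < g`, where `d` is the degree over `X` of the image of `W` in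
`X × V`. Let `Δ` be an effective `ℚ`-divisor on `X` such that the restriction to `F` of the pull back of
`K_X + Δ` is at most `K_F + Γ`. Then `κ (K_X + Δ) = ν (K_X + Δ) = n`, if `φ` is a section of the
restriction to `F` of the pull back of `N (K_X + Δ)`, and otherwise `κ (K_X + Δ) = ν (K_X + Δ) = -∞`.
(2) If `N (K_F + Γ) ≤ 0` on a projective model of `F`, then `ν (K_F + Γ) ≤ 0`. -/
theorem result : ∀ (n r N : ℕ) (K : Type) [Field K] [Algebra ℂ K] (E : IntermediateField ℂ K)
    (x : Fin n → E), Fibration n r E x → 1 ≤ r → 1 ≤ N → ∀ (Γ : Place E K → ℚ)
    (φ : (Fin r → Derivation E K K) → K),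
    (∀ g h : ℕ, Separates x g → 1 ≤ h → FewForms E r h → NuLeZero E r Γ →
      FolForm E (n + r) r N Γ φ → φ ≠ 0 →
      ∀ (L : Type) [Field L] [Algebra ℂ L] [Algebra L K] [IsScalarTower ℂ L K]
        [FiniteDimensional L K], (h + 1) * degree L E < g →
        ∀ (N' : ℕ) (y : Fin (N' + 1) → L), NormalModel y → ∀ Δ, Effective y Δ →
          PullLe E r (n + r) Γ y Δ →
          (PullSection E r N φ y Δ ∧ kodairaDim y (n + r) Δ = (n : WithBot ℕ) ∧
            ∀ A, Effective y A → Integral y A → numericalDim y (n + r) Δ A = (n : EReal)) ∨
          (¬ PullSection E r N φ y Δ ∧ kodairaDim y (n + r) Δ = ⊥ ∧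
            ∀ A, Effective y A → numericalDim y (n + r) Δ A = ⊥)) ∧
    ∀ (M : ℕ) (z : Fin (M + 1) → K), LeZero E r N Γ z φ → NuLeZero E r Γ := by
  intro n r N K _ _ E x hF hr hN Γ φ
  have hess := hF.ess
  refine ⟨?_, fun M z hz => nu_zero hr hF.total hF.base hN hz⟩
  intro g h hs hh hf hν hφ hφ0 L _ _ _ _ _ hg N' y hy Δ hΔ hH
  rw [← tame_iff]
  exact abund_few (L := L) fPull hr hF.total hF.base hF.closed hF.coord ((sep_iff x g).2 hs) hh hg hf
    hν hN hφ hφ0 hy hΔ fun Q hQ P e hP => hH Q hQ P e hP

end Pool.Agent.Results.MP_e23cd6_ag.NuZeroFibrations
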