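import Pool.Agent.T2h12.NP3
import Pool.Agent.N110.CanS
import Pool.Agent.N110.IM.Img
import Pool.Agent.N110.IM.Defs
import Pool.Agent.N110.NV.Fin
import Pool.Agent.R887.Exc

/-!
Abundance for pairs with self-maps, not necessarily invertible, such that the degrees of the random
products have no long plateau at the top.
-/

set_option autoImplicit false

open FF Pool.Agent.W602.GT Pool.Agent.Y172 Pool.Agent.R887 Pool.Agent.N110 Pool.Agent.T2h12

namespace Pool.Agent.Results.MP_e23cd6_ag.RandomProducts

/-- The divisor `K_X + Δ` is `ℚ`-linearly equivalent to zero (so it is semiample): for some `m ≥ 1`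
there is a rational `m`-canonical form `η` such that `m (K_X + Δ)` is the divisor of `η`, shifted by
`m Δ`: the order of `η` along every prime divisor `P` of `X` is `- m Δ P`. -/
def LogTorsion {K : Type} [Field K] [Algebra ℂ K] {N : ℕ} (y : Fin (N + 1) → K) (n : ℕ)
    (Δ : Place ℂ K → ℚ) : Prop :=
  ∃ m : ℕ, 1 ≤ m ∧ ∃ η : (Fin n → Derivation ℂ K K) → K, IsPluri m η ∧
    ∀ P, IsPrimeDivisor y P → OrdEq P η (-(m * Δ P))

/-- Let `(X', Δ')` be a projective pair of dimension `n`, `Δ' ≥ 0`, with generic point `y'`, and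
`f_1, ..., f_d` dominant rational self-maps of `X'`, invertible or not, given by the endomorphisms
`f i = f_i^*` of the function field, such that `f_i^* (K_X' + Δ')` is at most `K_X' + Δ'` over the
prime divisors of `X'`, or suppose that `Δ' = 0` and `X'` has canonical singularities (no condition
on the maps then). Let `w i ≥ 0` be probabilities with sum `1`, and `s ≥ 0` real. The dynamical
degrees `λ 0, ..., λ n` of exponent `s` of the random products of the maps `f_i`
(`randomDegree`) are the growth rates of the means of exponent `s` of the degrees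
`(g^* H) ^ p · H ^ (n - p)` of the composition `g` of `l` independent random maps: for `s = 1` the
expected degrees; for `s = 0` the geometric means, that is, `log (λ p)` is the Lyapunov exponent of
the degrees. For one map they are its dynamical degrees. Suppose one of the following.

(a) `K_X' + Δ'` is nef;

(b) `K_X' + Δ'` is at most `f_i^* (K_X' + Δ')` over the prime divisors of the target, for all `i`:
for instance `f_i` is finite and `K_X' + Δ' = f_i^* (K_X' + Δ')` (`f_i` is étale in codimension one,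
if `Δ' = 0`), or `f_i` is birational and the inverse map also satisfies the condition above;

(c) `(X', Δ')` is klt, and `ν = 1` (then nothing else is assumed on `K_X' + Δ'`, which need not be
nef, effective or pseudo-effective), or the Kodaira dimension of `K_X' + Δ'` is at least `ν - 1`.

Suppose that the greatest of the numbers `λ 0, ..., λ n` is not attained at `ν + 1` consecutive
indices, `ν ≥ 1`.

Let `(X, Δ)` be a pair, `Δ ≥ 0` (for instance a klt pair), which is dominated by `(X', Δ')`: there is
a dominant rational map `X' ⇢ X`, generically finite, given by the homomorphism `π` of the function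
fields, such that the pull back of `K_X + Δ` is at most `K_X' + Δ'` over the prime divisors of `X'`
(for instance `X = X'`, or the quotient of `X'` by a finite group, which has nothing to do with the
maps `f_i`). Then the numerical dimension of `K_X + Δ` is at most `ν - 1`, and so is the Kodaira
dimension; if the Kodaira dimension is at least `ν - 1` then the Kodaira dimension and the numerical
dimension of `K_X + Δ` are equal. For `ν = 1` this means: if `K_X + Δ` is effective, up to
`ℚ`-linear equivalence, then the Kodaira dimension and the numerical dimension of `K_X + Δ` are zero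
(this is also proved for the numerical dimension defined by the growth of the number of the sections
of `m (K_X + Δ) + A`); and if `K_X + Δ` is nef, and effective up to `ℚ`-linear equivalence or `X` of
irregularity zero, then `K_X + Δ` is `ℚ`-linearly trivial, in particular semiample. -/
theorem result
    {K K' : Type} [Field K] [Algebra ℂ K] [Field K'] [Algebra ℂ K'] {N N' n : ℕ}
    {y : Fin (N + 1) → K} {y' : Fin (N' + 1) → K'} (hy : NormalModel y) (hy' : NormalModel y')
    (hn : Algebra.trdeg ℂ K = n) (hn' : Algebra.trdeg ℂ K' = n)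
    {Δ' : Place ℂ K' → ℚ} (hΔ' : Effective y' Δ') {d : ℕ} {f : Fin d → (K' →ₐ[ℂ] K')}
    (hP : (∀ i, SelfPullLe (f i) y' n Δ') ∨ (Δ' = 0 ∧ Canonical y' n))
    {w : Fin d → ℝ} (hw : ∀ i, 0 ≤ w i) (hw1 : ∑ i, w i = 1) {s : ℝ} (hs : 0 ≤ s)
    {ν : ℕ} (hν1 : 1 ≤ ν) (hν : ν ≤ n)
    (hcase : LogNef y' n Δ' ∨ (∀ i, SelfPushLe (f i) y' n Δ') ∨
      (Klt y' n Δ' ∧ (ν = 1 ∨ KappaGe y' n Δ' (ν - 1))))
    (hdeg : ∀ j, j + ν ≤ n → ∃ a ≤ ν, ∃ p ≤ n,
      randomDegree f w y' n s (j + a) < randomDegree f w y' n s p)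
    {Δ : Place ℂ K → ℚ} (hΔ : Effective y Δ) (π : K →ₐ[ℂ] K')
    (hπ : IM.ImagePullLe π y n Δ y' Δ') :
    NumDimLt y n Δ ν ∧ ¬ KappaGe y n Δ ν ∧ (KappaGe y n Δ (ν - 1) → Abundant y n Δ) ∧
      (ν = 1 → KappaGe y n Δ 0 → kodairaDim y n Δ = ((0 : ℕ) : WithBot ℕ) ∧
        ∀ A, Effective y A → Integral y A → numericalDim y n Δ A = ((0 : ℕ) : EReal)) ∧
      (ν = 1 → LogNef y n Δ → KappaGe y n Δ 0 ∨ IrregularityZero y → LogTorsion y n Δ) := by
  classical
  have hn0 : 0 < n := by omega
  have hP' : ∀ i, SelfPullLe (f i) y' n Δ' := by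
    rcases hP with h | ⟨rfl, hcan⟩
    · exact h
    · exact fun i => selfPullLe_canonical hy' hn' hcan (f i)
  have hPS : ∀ φ ∈ Set.range f, SelfPullLe φ y' n Δ' := by
    rintro _ ⟨i, rfl⟩
    exact hP' i
  obtain ⟨i, hi⟩ := hy'.ne
  have h1 : NumDimLt y' n Δ' ν := by
    by_contra hcon
    have hC : HasC hy' hn' hi (Set.range f) ν := by
      have hC₁ : ∀ φ ∈ Set.range f, I (eCls hy' hn' hi φ (hcls hy' hi) ::ₘ
          Multiset.replicate (n - 1) (hcls hy' hi)) ≤ Finset.univ.sup fun j =>
            I (eCls hy' hn' hi (f j) (hcls hy' hi) ::ₘ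
              Multiset.replicate (n - 1) (hcls hy' hi)) := by
        rintro _ ⟨j, rfl⟩
        exact Finset.le_sup (f := fun j => I (eCls hy' hn' hi (f j) (hcls hy' hi) ::ₘ
          Multiset.replicate (n - 1) (hcls hy' hi))) (Finset.mem_univ j)
      rcases hcase with h | h | ⟨hklt, hκ | hκ⟩
      · exact hasC_num hy' hn' hn0 hi hΔ'.2 hPS (Or.inl h) hC₁ hν hcon
      · refine hasC_num hy' hn' hn0 hi hΔ'.2 hPS (Or.inr ?_) hC₁ hν hcon
        rintro _ ⟨j, rfl⟩
        exact h j
      · subst hκ
        exact hasC_kltN hy' hn' hi hΔ' hklt (Set.finite_range f) hPS (by omega) hcon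
      · have e1 : ν = ν - 1 + 1 := by omega
        rw [e1] at hcon ⊢
        exact hasC_klt hy' hn' hi hΔ' hklt (Set.finite_range f) hPS hκ (by omega) hcon
    obtain ⟨j, hj, h⟩ := random_plateau hy' hn' hi hw hw1 hs hν hC
    obtain ⟨a, ha, p, hp, hlt⟩ := hdeg j hj
    exact absurd hlt (not_lt.2 (h a ha p hp))
  have h2 := IM.numDimLt_img hy hy' hn hn' π hπ hν h1
  refine ⟨h2, ?_, fun h => ⟨ν - 1, h, ?_⟩, ?_, ?_⟩
  · rintro ⟨m, hm, ω, E, hω, h0, hind⟩
    exact kappa_lt hy hn hν h2 hm hω h0 hind
  · rwa [show ν - 1 + 1 = ν by omega]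
  · rintro rfl ⟨m, hm, ω, E, hω, h0, -⟩
    refine abundance_zero hy hn hn0 hΔ h2 hm (hω 0) fun h4 => h0 ?_
    rw [h4]
    rfl
  · rintro rfl hnef hκ
    have h3 : ∃ m : ℕ, 1 ≤ m ∧ ∃ η : (Fin n → Derivation ℂ K K) → K, η ≠ 0 ∧
        IsSection y n m (m • Δ) η := by
      rcases hκ with ⟨m, hm, ω, E, hω, h0, -⟩ | hirr
      · exact ⟨m, hm, ω 0, fun h4 => h0 (by rw [h4]; rfl), hω 0⟩
      · exact NV.nonvanishing hy hn hn0 hΔ.2 (NV.psef_of_nef hy hn hn0 hnef) h2 hirr
    obtain ⟨m, hm, η, hη0, hη⟩ := h3
    exact ⟨m, hm, η, hη.1, nef_trivialP hy hn hn0 h2 hnef hm hη hη0⟩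

end Pool.Agent.Results.MP_e23cd6_ag.RandomProducts
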